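import Mathlib

set_option autoImplicit false

namespace Pool.Agent.Results.MP_2e17cf_an.Counterexample

open Matrix Filter Topology

structure CDT (n : ℕ) where
  Q : Matrix (Fin n) (Fin n) ℝ
  c : Fin n → ℝ
  A : Fin 2 → Matrix (Fin n) (Fin n) ℝ
  b : Fin 2 → Fin n → ℝ
  d : Fin 2 → ℝ
  symm : Q.IsSymm
  pos : ∀ i, (A i).PosDef

variable {n : ℕ}

noncomputable def CDT.f (P : CDT n) (x : Fin n → ℝ) : ℝ := 1 / 2 * (x ⬝ᵥ P.Q *ᵥ x) + P.c ⬝ᵥ x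

def CDT.g (P : CDT n) (i : Fin 2) (x : Fin n → ℝ) : ℝ :=
  x ⬝ᵥ P.A i *ᵥ x + 2 * (P.b i ⬝ᵥ x) + P.d i

def CDT.F (P : CDT n) : Set (Fin n → ℝ) := {x | ∀ i, P.g i x ≤ 0}

def CDT.KKT (P : CDT n) (x : Fin n → ℝ) : Prop :=
  x ∈ P.F ∧ ∃ μ : Fin 2 → ℝ, (∀ i, 0 ≤ μ i ∧ μ i * P.g i x = 0) ∧
    P.Q *ᵥ x + P.c + ∑ i, μ i • ((2 : ℝ) • (P.A i *ᵥ x + P.b i)) = 0

def CDT.LNG (P : CDT n) : Set (Fin n → ℝ) :=
  {x | x ∈ P.F ∧ IsLocalMinOn P.f P.F x ∧ ¬ IsMinOn P.f P.F x}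

noncomputable def P0 : CDT 2 where
  Q := !![-2, 0; 0, -1]
  c := ![-1 / 2, 0]
  A := fun _ => 1
  b := ![![51 / 20, 0], ![0, 0]]
  d := ![-203 / 50, -1]
  symm := by
    ext i j
    fin_cases i <;> fin_cases j <;> simp
  pos := fun _ => Matrix.PosDef.one

lemma f_eq (x : Fin 2 → ℝ) : P0.f x = -x 0 ^ 2 - x 0 / 2 - x 1 ^ 2 / 2 := by
  simp [CDT.f, P0, dotProduct, mulVec, Fin.sum_univ_two]
  ring

lemma g0_eq (x : Fin 2 → ℝ) : P0.g 0 x = x 0 ^ 2 + x 1 ^ 2 + 51 / 10 * x 0 - 203 / 50 := by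
  simp [CDT.g, P0, dotProduct, Fin.sum_univ_two]
  ring

lemma g1_eq (x : Fin 2 → ℝ) : P0.g 1 x = x 0 ^ 2 + x 1 ^ 2 - 1 := by
  simp [CDT.g, P0, dotProduct, Fin.sum_univ_two]
  ring

lemma mem_F (x : Fin 2 → ℝ) : x ∈ P0.F ↔
    x 0 ^ 2 + x 1 ^ 2 + 51 / 10 * x 0 - 203 / 50 ≤ 0 ∧ x 0 ^ 2 + x 1 ^ 2 - 1 ≤ 0 := by
  simp only [CDT.F, Set.mem_setOf_eq, Fin.forall_fin_two, g0_eq, g1_eq]

lemma ev_neg (h : ℝ → ℝ) (hc : Continuous h) (h0 : h 0 < 0) : ∀ᶠ t in 𝓝[>] (0 : ℝ), h t < 0 :=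
  ((hc.tendsto 0).eventually (gt_mem_nhds h0)).filter_mono nhdsWithin_le_nhds

lemma curve (p : Fin 2 → ℝ) (hp : IsLocalMinOn P0.f P0.F p) (u v : ℝ → ℝ) (hu : Continuous u)
    (hv : Continuous v) (hu0 : u 0 = p 0) (hv0 : v 0 = p 1)
    (h : ∀ᶠ t in 𝓝[>] (0 : ℝ), u t ^ 2 + v t ^ 2 + 51 / 10 * u t - 203 / 50 ≤ 0 ∧
      u t ^ 2 + v t ^ 2 - 1 ≤ 0 ∧
      -u t ^ 2 - u t / 2 - v t ^ 2 / 2 < -p 0 ^ 2 - p 0 / 2 - p 1 ^ 2 / 2) : False := by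
  have hc : Continuous (fun t => (![u t, v t] : Fin 2 → ℝ)) := by
    refine continuous_pi fun i => ?_
    fin_cases i
    · simpa using hu
    · simpa using hv
  have h0 : (![u 0, v 0] : Fin 2 → ℝ) = p := by
    ext i; fin_cases i <;> simp [hu0, hv0]
  have ht : Tendsto (fun t => (![u t, v t] : Fin 2 → ℝ)) (𝓝[>] 0) (𝓝[P0.F] p) := by
    refine tendsto_nhdsWithin_iff.mpr ⟨?_, h.mono fun t ht => (mem_F _).mpr ⟨?_, ?_⟩⟩
    · rw [← h0]; exact (hc.tendsto 0).mono_left nhdsWithin_le_nhds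
    · simpa using ht.1
    · simpa using ht.2.1
  obtain ⟨t, h1, h2⟩ := ((ht.eventually hp).and h).exists
  rw [f_eq, f_eq] at h1
  simp only [cons_val_zero, cons_val_one] at h1
  linarith [h2.2.2]

lemma glob (p : Fin 2 → ℝ) (hp : p ∈ P0.F) : -49 / 50 ≤ P0.f p := by
  rw [mem_F] at hp
  rw [f_eq]
  obtain ⟨h1, h2⟩ := hp
  have h3 : -1 ≤ p 0 := by nlinarith [sq_nonneg (p 1)]
  have h4 : p 0 ≤ 1 := by nlinarith [sq_nonneg (p 1)]
  rcases le_total (p 0) (3 / 5) with h | h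
  · nlinarith
  · nlinarith

lemma lng (p : Fin 2 → ℝ) (hp : p ∈ P0.LNG) : -1 / 2 ≤ P0.f p := by
  obtain ⟨hF, hl, hg⟩ := hp
  obtain ⟨h1, h2⟩ := (mem_F p).mp hF
  have h3 : -1 ≤ p 0 := by nlinarith [sq_nonneg (p 1)]
  rcases le_or_gt (p 0) 0 with hx | hx
  · rw [f_eq]; nlinarith
  exfalso
  have pos : ∀ᶠ t in 𝓝[>] (0 : ℝ), 0 < t := self_mem_nhdsWithin
  have slack : p 0 ^ 2 + p 1 ^ 2 + 51 / 10 * p 0 - 203 / 50 < 0 → p 0 ^ 2 + p 1 ^ 2 - 1 < 0 →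
      False := by
    intro s1 s2
    refine curve p hl (fun t => p 0 + t) (fun _ => p 1) (by fun_prop) (by fun_prop) (by simp) rfl ?_
    filter_upwards [pos, ev_neg (fun t => (p 0 + t) ^ 2 + p 1 ^ 2 + 51 / 10 * (p 0 + t) - 203 / 50)
      (by fun_prop) (by simpa using s1), ev_neg (fun t => (p 0 + t) ^ 2 + p 1 ^ 2 - 1)
      (by fun_prop) (by simpa using s2)] with t t0 t1 t2
    exact ⟨t1.le, t2.le, by nlinarith⟩
  by_cases hy : p 1 = 0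
  · have h4 : p 0 ≤ 7 / 10 := by rw [hy] at h1; nlinarith
    rcases eq_or_lt_of_le h4 with h5 | h5
    · refine curve p hl (fun t => 7 / 10 - t ^ 2 / 5) (fun t => t) (by fun_prop) (by fun_prop)
        (by simp [h5]) hy.symm ?_
      filter_upwards [pos, ev_neg (fun t => t - 1 / 2) (by fun_prop) (by norm_num)] with t t0 t1
      have t2 : 0 < t ^ 2 := by positivity
      have t3 : t ^ 2 < 1 / 4 := by nlinarith
      rw [h5, hy]
      refine ⟨by nlinarith, by nlinarith, by nlinarith⟩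
    · apply slack <;> rw [hy] <;> nlinarith
  have hy2 : 0 < p 1 ^ 2 := by positivity
  rcases lt_trichotomy (p 0) (3 / 5) with h5 | h5 | h5
  · refine curve p hl (fun t => p 0 + t * p 1 ^ 2) (fun t => p 1 - t * ((p 0 + 1 / 4) * p 1))
      (by fun_prop) (by fun_prop) (by simp) (by simp) ?_
    filter_upwards [pos, ev_neg (fun t => (p 0 + t * p 1 ^ 2) ^ 2 +
        (p 1 - t * ((p 0 + 1 / 4) * p 1)) ^ 2 + 51 / 10 * (p 0 + t * p 1 ^ 2) - 203 / 50)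
      (by fun_prop) (by simp only [zero_mul, add_zero, sub_zero]; linarith),
      ev_neg (fun t => -p 1 ^ 2 / 2 + t * ((p 1 ^ 2) ^ 2 + ((p 0 + 1 / 4) * p 1) ^ 2))
      (by fun_prop) (by simp only [zero_mul, add_zero]; linarith)] with t t0 t1 t2
    refine ⟨t1.le, by nlinarith [mul_neg_of_pos_of_neg t0 t2], ?_⟩
    have a1 : 0 < t * (p 1 ^ 2 * (p 0 + 1 / 4)) := by positivity
    nlinarith [sq_nonneg (t * p 1 ^ 2), sq_nonneg (t * ((p 0 + 1 / 4) * p 1))]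
  · rcases eq_or_lt_of_le h2 with h6 | h6
    · apply hg
      intro q hq
      have := glob q hq
      simp only [Set.mem_setOf_eq]
      rw [f_eq p, h5]
      rw [h5] at h6
      linarith
    · exact slack (by linarith) h6
  · have h4 : p 0 ≤ 7 / 10 := by nlinarith
    refine curve p hl (fun t => p 0 - t * p 1 ^ 2) (fun t => p 1 + t * (5 / 2 * p 1))
      (by fun_prop) (by fun_prop) (by simp) (by simp) ?_
    filter_upwards [pos, ev_neg (fun t => (p 0 - t * p 1 ^ 2) ^ 2 +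
        (p 1 + t * (5 / 2 * p 1)) ^ 2 - 1)
      (by fun_prop) (by simp only [zero_mul, add_zero, sub_zero]; linarith),
      ev_neg (fun t => -p 1 ^ 2 * (2 * p 0 + 1 / 10) + t * ((p 1 ^ 2) ^ 2 + (5 / 2 * p 1) ^ 2))
      (by fun_prop) (by simp only [zero_mul, add_zero]; nlinarith)] with t t0 t1 t2
    refine ⟨by nlinarith [mul_neg_of_pos_of_neg t0 t2], t1.le, ?_⟩
    have a0 : 0 < 2 - 2 * p 0 := by linarith
    have a1 : 0 < t * (p 1 ^ 2 * (2 - 2 * p 0)) := by positivity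
    nlinarith [sq_nonneg (t * p 1 ^ 2), sq_nonneg (t * (5 / 2 * p 1))]

lemma corner : (![3 / 5, 4 / 5] : Fin 2 → ℝ) ∈ P0.F := by
  rw [mem_F]; norm_num

theorem result : ∃ (n : ℕ) (P : CDT n), 1 ≤ n ∧ P.LNG.Nonempty ∧
    ∃ x, P.KKT x ∧ ¬ IsMinOn P.f P.F x ∧ ∃ w, P.f x < w ∧ ∀ y ∈ P.LNG, w ≤ P.f y := by
  refine ⟨2, P0, by norm_num, ⟨![-1, 0], ?_, ?_, ?_⟩, ![7 / 10, 0], ⟨?_, ![19 / 65, 0], ?_, ?_⟩, ?_,
    -1 / 2, ?_, lng⟩
  · rw [mem_F]; norm_num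
  · have h1 : ∀ᶠ q in 𝓝[P0.F] (![-1, 0] : Fin 2 → ℝ), q 0 < 0 :=
      (((continuous_apply 0).tendsto (![-1, 0] : Fin 2 → ℝ)).eventually
        (gt_mem_nhds (by norm_num))).filter_mono nhdsWithin_le_nhds
    filter_upwards [h1, self_mem_nhdsWithin] with q h2 h3
    obtain ⟨h4, h5⟩ := (mem_F q).mp h3
    have h6 : -1 ≤ q 0 := by nlinarith [sq_nonneg (q 1)]
    rw [f_eq, f_eq]
    simp only [cons_val_zero, cons_val_one]
    nlinarith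
  · intro h
    have := h corner
    simp only [Set.mem_setOf_eq, f_eq] at this
    norm_num at this
  · rw [mem_F]; norm_num
  · rw [Fin.forall_fin_two, g0_eq, g1_eq]; norm_num
  · ext i
    fin_cases i <;> simp [P0, Fin.sum_univ_two, vecHead, vecTail] <;> norm_num
  · intro h
    have := h corner
    simp only [Set.mem_setOf_eq, f_eq] at this
    norm_num at this
  · rw [f_eq]; norm_num

end Pool.Agent.Results.MP_2e17cf_an.Counterexample
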